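import Pool.Agent.Q79.HW.Nec
import Pool.Agent.Q129.HW.RED
import Pool.Agent.Q129.HW.PT
import Pool.Agent.Q129.HW.WT
import Pool.Agent.Q129.HW.E2
import Pool.Agent.Q79.HW.Loc
import Pool.Agent.Q79.HW.C2
import Pool.Agent.Q79.HW.Cen
import Pool.Agent.Q79.HW.C3
import Pool.Agent.Q211.HW.Pos
import Pool.Agent.Q211.HW.Pair
import Pool.Agent.Q121.HW.E1
import Pool.Agent.Q121.HW.PW
import Pool.Agent.Q121.HW.SUF
import Pool.Agent.Q68.HW.Line
import Pool.Agent.Q95.HW.KER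

/-!
# MP_945c9c_an: all weights for the Hilbert transform on functions of mean zero

Full answer to Q1. For `1 < p < ∞` a weight `U` is admissible, i.e.
`∫ |Hf|^p U ≤ C ∫ |f|^p U` for all integrable `f` with `∫ f = 0`, if and only if one of the weights
`U`, `U/(1+|x|)^p`, `U/|x - c|^p` (for some real `c`) is in the Muckenhoupt class `A_p`.
-/

set_option autoImplicit false

open MeasureTheory Filter Topology Set
open scoped ENNReal NNReal Real

namespace Pool.Agent.Results.MP_945c9c_an.AdmissibleWeights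

open Pool.Agent.Q79.HW

/-- The admissible weights (real or complex valued functions `f`). -/
theorem result (𝕜 : Type) [RCLike 𝕜] (p : ℝ) (hp : 1 < p) (U : ℝ → ℝ) (hU : IsWeight U) :
    Admissible 𝕜 p U ↔
      (MemAp p U ∨ MemAp p (fun x => U x / (1 + |x|) ^ p) ∨
        ∃ c : ℝ, MemAp p (fun x => U x / |x - c| ^ p)) := by
  have hPT := Pool.Agent.Q129.HW.t_PT Pool.Agent.Q211.HW.tf
  have hLOC := loc hPT Pool.Agent.Q211.HW.pair Pool.Agent.Q211.HW.pos
  have hWT := Pool.Agent.Q129.HW.t_WT Pool.Agent.Q211.HW.tf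
  have hE1 := Pool.Agent.Q121.HW.t_E1 Pool.Agent.Q211.HW.tf
  have hCEN := cen hE1 Pool.Agent.Q129.HW.t_E2 Pool.Agent.Q211.HW.hold Pool.Agent.Q211.HW.pos
  refine ⟨nec Pool.Agent.Q129.HW.t_RED Pool.Agent.Q211.HW.pos (c1 hLOC)
    (c2 hWT Pool.Agent.Q211.HW.pair Pool.Agent.Q211.HW.pos)
    (c3 hLOC hCEN Pool.Agent.Q211.HW.pos) 𝕜 p hp U hU, ?_⟩
  exact Pool.Agent.Q121.HW.t_SUF (Pool.Agent.Q68.HW.line' Pool.Agent.Q95.HW.t_KER)
    Pool.Agent.Q121.HW.t_PW 𝕜 p hp U hU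

end Pool.Agent.Results.MP_945c9c_an.AdmissibleWeights
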